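import Pool.Agent.Y166.CS.Stm3

/-!
# Isomorphisms of hypersurfaces transport Jacobian ideals
-/

set_option autoImplicit false

namespace Pool.Agent.Y77.CS

open Pool.Agent.Y166.CS Pool.Agent.Results.MP_c4712b_ag.ManyNodesFamily

/-- the partial derivatives of a multiple of `p` lie in the Jacobian ideal of `p` -/
lemma pd_mem (p h : Poly3) (i : Fin 3) : MvPolynomial.pderiv i (h * p) ∈ Jac p := by
  rw [Derivation.leibniz, smul_eq_mul, smul_eq_mul]
  refine Ideal.add_mem _ (Ideal.mul_mem_left _ _ (Ideal.subset_span (Or.inr ⟨i, rfl⟩))) ?_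
  exact Ideal.mul_mem_right _ _ (Ideal.subset_span (Or.inl rfl))

theorem done : Pool.Agent.Y166.CS.S_JAC := by
  intro p q F G hq hG r hr
  classical
  obtain ⟨h0, hq⟩ := hq
  choose h hh using hG
  let m := Ideal.Quotient.mk (Jac p)
  let A : Matrix (Fin 3) (Fin 3) (Poly3 ⧸ Jac p) :=
    Matrix.of fun i j => m (MvPolynomial.pderiv i (F j))
  let B : Matrix (Fin 3) (Fin 3) (Poly3 ⧸ Jac p) :=
    Matrix.of fun l j => m (MvPolynomial.aeval F (MvPolynomial.pderiv l (G j)))
  have hz : ∀ (g : Poly3) (i : Fin 3), m (MvPolynomial.pderiv i (g * p)) = 0 := fun g i =>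
    Ideal.Quotient.eq_zero_iff_mem.2 (pd_mem p g i)
  have hAB : A * B = 1 := by
    ext i j
    have h1 := congrArg (fun g => m (MvPolynomial.pderiv i g)) (hh j)
    simp only [pderiv_aeval, map_add, map_sum, map_mul] at h1
    have h2 : m (MvPolynomial.pderiv i (h j * p)) = 0 := hz (h j) i
    rw [h2, add_zero] at h1
    rw [Matrix.mul_apply, Matrix.one_apply]
    simp only [A, B, Matrix.of_apply]
    rw [← Finset.sum_congr rfl fun l _ => mul_comm _ _, h1]
    rw [MvPolynomial.pderiv_X]
    by_cases hij : i = j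
    · subst hij
      simp
    · rw [if_neg hij, Pi.single_eq_of_ne (fun e => hij e.symm), map_zero]
  have hBA : B * A = 1 := mul_eq_one_comm.1 hAB
  let v : Fin 3 → Poly3 ⧸ Jac p := fun j => m (MvPolynomial.aeval F (MvPolynomial.pderiv j q))
  have hv : A.mulVec v = 0 := by
    funext i
    have h1 := congrArg (fun g => m (MvPolynomial.pderiv i g)) hq
    simp only [pderiv_aeval, map_sum, map_mul] at h1
    rw [hz h0 i] at h1
    simp only [Matrix.mulVec, dotProduct, A, v, Matrix.of_apply, Pi.zero_apply]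
    rw [← h1]
    exact Finset.sum_congr rfl fun l _ => mul_comm _ _
  have hv0 : v = 0 := by
    have h1 : (B * A).mulVec v = 0 := by
      rw [← Matrix.mulVec_mulVec, hv, Matrix.mulVec_zero]
    rwa [hBA, Matrix.one_mulVec] at h1
  have hle : Jac q ≤ (Jac p).comap (MvPolynomial.aeval F : Poly3 →ₐ[ℂ] Poly3) := by
    refine Ideal.span_le.2 ?_
    rintro g (rfl | ⟨i, rfl⟩)
    · show MvPolynomial.aeval F g ∈ Jac p
      rw [hq]
      exact Ideal.mul_mem_left _ _ (Ideal.subset_span (Or.inl rfl))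
    · show MvPolynomial.aeval F (MvPolynomial.pderiv i q) ∈ Jac p
      exact Ideal.Quotient.eq_zero_iff_mem.1 (congrFun hv0 i)
  exact hle hr

end Pool.Agent.Y77.CS
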